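import Pool.Agent.H.MP_dd7d0c_lc.Defs
import Pool.Agent.Lib.lead.CXGraphRed
import Pool.Agent.Lib.lead.CXBase

namespace Pool.Agent.H.MP_dd7d0c_lc

open Pool.Agent.Lib.CX

section
variable {P : Type} [PartialOrder P]

def DF (f : P → P) : Prop := (∀ c, f c ≤ c) ∧ (∀ c d, c ≤ d → f c ≤ f d) ∧ ∀ c d, c ≤ f d → f c = c

theorem DF.comp {f g : P → P} (a : DF f) (b : DF g) : DF (f ∘ g) :=
  ⟨fun c => (a.1 _).trans (b.1 c), fun c d h => a.2.1 _ _ (b.2.1 c d h), fun c d h => by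
    have := b.2.2 c d (h.trans (a.1 _))
    simp only [Function.comp, this, a.2.2 c _ h]⟩

theorem DF.le {f g : P → P} (a : DF f) (b : DF g) (c : P) : f (g c) ≤ g (f c) := by
  rw [← b.2.2 (f (g c)) c (a.1 _)]
  exact b.2.1 _ _ (a.2.1 _ _ (b.1 c))

theorem down_iff : IsDownPoset (fun c d : P => c ≤ d) ↔ ∀ c d : P, c ≤ d → ∃ f, DF f ∧ f d = c := by
  constructor
  · rintro ⟨S, C, mul, one, act, e, h1, h2, -, -, h5, -, h7⟩ c d h
    obtain ⟨s, hs⟩ := (h7 c d).1 h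
    refine ⟨fun x => e.symm (act (e x) s), ⟨fun x => (h7 _ _).2 ⟨s, by simp⟩, fun x y q => ?_, fun x y q => ?_⟩, by simp [hs]⟩
    · obtain ⟨t, ht⟩ := (h7 x y).1 q
      exact (h7 _ _).2 ⟨t, by simp only [Equiv.apply_symm_apply]; rw [← ht, ← h5, ← h5, h2]⟩
    · obtain ⟨t, ht⟩ := (h7 _ _).1 q
      simp only [Equiv.apply_symm_apply] at ht
      rw [e.symm_apply_eq, ← ht, ← h5 _ t s, h2, h5, ← h5 _ s s, h1]
  · intro h
    refine ⟨{f : P → P // DF f}, P, fun f g => ⟨g.1 ∘ f.1, g.2.comp f.2⟩, ⟨id, fun _ => le_rfl, fun _ _ => id, fun _ _ _ => rfl⟩,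
      fun c f => f.1 c, Equiv.refl P, fun s => Subtype.ext (funext fun c => s.2.2.2 _ c le_rfl),
      fun s t => Subtype.ext (funext fun c => (t.2.le s.2 c).antisymm (s.2.le t.2 c)), fun _ _ _ => rfl, fun _ => rfl,
      fun _ _ _ => rfl, fun _ => rfl, fun c d => ⟨fun q => ?_, ?_⟩⟩
    · obtain ⟨f, a, b⟩ := h c d q
      exact ⟨⟨f, a⟩, b⟩
    · rintro ⟨f, rfl⟩
      exact f.2.1 d

def stp (D : Set P) : Set P := {z | ∃ x, z ≤ x ∧ ∀ y ≤ x, (∀ w ∈ D, w ≤ x → w ≤ y) → y = x}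
def Good (D : Set P) : Prop := ∀ x, ∃ y ∈ D, y ≤ x ∧ ∀ w ∈ D, w ≤ x → w ≤ y

theorem sub_stp (D : Set P) : D ⊆ stp D := fun z hz => ⟨z, le_rfl, fun _ a b => a.antisymm (b z hz le_rfl)⟩

theorem good_it [Finite P] (c : P) (k : ℕ) :
    IsLowerSet (stp^[k] (Set.Iic c)) ∧ Set.Iic c ⊆ stp^[k] (Set.Iic c) ∧
      (Good (stp^[k] (Set.Iic c)) ∨ k ≤ (stp^[k] (Set.Iic c)).ncard) := by
  induction k with
  | zero => exact ⟨isLowerSet_Iic c, le_rfl, .inr (Nat.zero_le _)⟩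
  | succ k ih =>
    rw [Function.iterate_succ_apply']
    generalize stp^[k] (Set.Iic c) = D at *
    refine ⟨fun a b h ⟨x, p, q⟩ => ⟨x, h.trans p, q⟩, ih.2.1.trans (sub_stp D), ?_⟩
    by_cases g : Good D
    · left
      have : stp D = D := Set.Subset.antisymm (fun z ⟨x, p, q⟩ => by
        obtain ⟨y, a, b, d⟩ := g x
        exact ih.1 p (q y b d ▸ a)) (sub_stp D)
      rwa [this]
    · right
      obtain ⟨x, hx, m⟩ := (wellFounded_lt (α := P)).has_min _ (not_forall.1 g)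
      refine (Nat.succ_le_succ (ih.2.2.resolve_left g)).trans (Set.ncard_lt_ncard ⟨sub_stp D, fun q => hx ⟨x, q ⟨x, le_rfl,
        fun y a b => by_contra fun e => m y (fun ⟨w, p1, p2, p3⟩ => hx ⟨w, p1, p2.trans a, fun v r s => p3 v r (b v r s)⟩)
          (lt_of_le_of_ne a e)⟩, le_rfl, fun _ _ => id⟩⟩)

theorem ex_iff [Finite P] {c d : P} (h : c ≤ d) {k : ℕ} (hk : Nat.card P < k) :
    (∃ f, DF f ∧ f d = c) ↔ ∀ z ∈ stp^[k] (Set.Iic c), z ≤ d → z ≤ c := by
  constructor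
  · rintro ⟨f, a, rfl⟩
    have : ∀ k, ∀ z ∈ stp^[k] (Set.Iic (f d)), f z = z := fun k => by
      induction k with
      | zero => exact fun z hz => a.2.2 z d hz
      | succ k ih =>
        rw [Function.iterate_succ_apply']
        rintro z ⟨x, p, q⟩
        exact a.2.2 z x ((q _ (a.1 x) fun w r s => ih w r ▸ a.2.1 w x s).symm ▸ p)
    exact fun z p q => this k z p ▸ a.2.1 z d q
  · intro q
    obtain ⟨a, b, g⟩ := good_it c k
    generalize stp^[k] (Set.Iic c) = D at *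
    choose f f1 f2 f3 using g.resolve_right fun e => (hk.trans_le e).not_ge (Set.ncard_le_card D)
    exact ⟨f, ⟨f2, fun x y r => f3 y _ (f1 x) ((f2 x).trans r), fun x y r => (f2 x).antisymm (f3 x x (a r (f1 y)) le_rfl)⟩,
      (q _ (f1 d) (f2 d)).antisymm (f3 d c (b le_rfl) h)⟩
end

def stL (a : Gr) (D : List ℕ) : List ℕ := (List.range a.n).filter fun z => ∃ x ∈ List.range a.n, (z, x) ∈ a.2 ∧
  ∀ y ∈ List.range a.n, (y, x) ∈ a.2 → (∀ w ∈ D, (w, x) ∈ a.2 → (w, y) ∈ a.2) → y = x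

def clo (a : Gr) (c : ℕ) : List ℕ := (stL a)^[a.n + 1] ((List.range a.n).filter fun z => (z, c) ∈ a.2)

def alg (a : Gr) : Prop := ∀ c ∈ List.range a.n, ∀ d ∈ List.range a.n, (c, d) ∈ a.2 → ∀ z ∈ clo a c, (z, d) ∈ a.2 → (z, c) ∈ a.2
instance (a) : Decidable (alg a) := by unfold alg; infer_instance

theorem it_sub (a : Gr) (c k) : ((stL a)^[k] ((List.range a.n).filter fun z => (z, c) ∈ a.2)).Sublist (List.range a.n) := by
  cases k
  · exact List.filter_sublist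
  · rw [Function.iterate_succ_apply']; exact List.filter_sublist

set_option synthInstance.maxSize 2000 in
@[fun_prop] theorem PT.clo {α : Type} [Enc α] {a : α → Gr} {c : α → ℕ} (ha : PT a) (hc : PT c) :
    PT fun x => clo (a x) (c x) := by
  have : PT fun p : Gr × ℕ => MP_dd7d0c_lc.clo p.1 p.2 :=
    PT.iterate (B := fun p => size (List.range p.1.n)) (by unfold stL; fun_prop) (by fun_prop) (by fun_prop) (by fun_prop)
      (by fun_prop) fun p k _ => size_sublist (it_sub _ _ _)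
  exact this.comp (ha.pair hc)

def W (a : Gr) := Fin a.n
instance (a : Gr) : Finite (W a) := inferInstanceAs (Finite (Fin a.n))
@[reducible] def po (a : Gr) (h : IsPartialOrder (Fin a.n) a.arc) : PartialOrder (W a) where
  le := a.arc
  le_refl := h.refl
  le_trans := h.trans
  le_antisymm := h.antisymm

theorem key (a : Gr) (h : IsPartialOrder (Fin a.n) a.arc) : IsDownPoset a.arc ↔ alg a := by
  let _ := po a h
  have fa : ∀ {p : ℕ → Prop}, (∀ x ∈ List.range a.n, p x) ↔ ∀ x : W a, p x.1 := by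
    simp only [List.mem_range]; exact ⟨fun h x => h x.1 x.2, fun h x hx => h ⟨x, hx⟩⟩
  have ex : ∀ {p : ℕ → Prop}, (∃ x ∈ List.range a.n, p x) ↔ ∃ x : W a, p x.1 := by
    simp only [List.mem_range]; exact ⟨fun ⟨x, hx, h⟩ => ⟨⟨x, hx⟩, h⟩, fun ⟨x, h⟩ => ⟨x.1, x.2, h⟩⟩
  have fs : ∀ {L : List ℕ} {D : Set (W a)} {p : ℕ → Prop}, L.Sublist (List.range a.n) → (∀ z : W a, z.1 ∈ L ↔ z ∈ D) →
      ((∀ x ∈ L, p x) ↔ ∀ x ∈ D, p x.1) := fun s e =>
    ⟨fun h x hx => h _ ((e x).2 hx), fun h x hx => h ⟨x, List.mem_range.1 (s.subset hx)⟩ ((e _).1 hx)⟩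
  have it : ∀ (c : W a) k (z : W a), z.1 ∈ (stL a)^[k] ((List.range a.n).filter fun z => (z, c.1) ∈ a.2) ↔
      z ∈ stp^[k] (Set.Iic c) := fun c k => by
    induction k with
    | zero => exact fun z => by simp [z.2]; rfl
    | succ k ih =>
      intro z
      rw [Function.iterate_succ_apply', Function.iterate_succ_apply', stL, List.mem_filter, decide_eq_true_eq, ex]
      simp only [fa, fs (it_sub a c.1 k) ih]
      rw [and_iff_right (List.mem_range.2 z.2)]
      exact exists_congr fun x => and_congr .rfl (forall_congr' fun y => imp_congr .rfl (imp_congr .rfl Fin.val_inj))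
  refine (down_iff (P := W a)).trans ?_
  simp only [alg, fa]
  refine forall₂_congr fun c d => forall_congr' fun q => (ex_iff q (k := a.n + 1) (by simp [W])).trans ?_
  exact (fs (p := fun z => (z, d.1) ∈ a.2 → (z, c.1) ∈ a.2) (it_sub a c.1 _) (it c _)).symm

set_option synthInstance.maxSize 2000 in
theorem poly : InP fun a : {a : Gr // IsPartialOrder (Fin a.n) a.arc} => IsDownPoset a.1.arc :=
  (InP.of_iff (B := alg) (InP.of_decide (by unfold alg; fun_prop)) fun _ => .rfl).red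
    ⟨fun a => a.1, PT.val PT.id, fun a => key a.1 a.2⟩

end Pool.Agent.H.MP_dd7d0c_lc
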