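import Pool.Agent.Lib.lead.CXGraph

namespace Pool.Agent.H.MP_dd7d0c_lc

/-- the relation `r` on `P` is isomorphic to the order `c ≤ d ↔ ∃ s, d s = c` of an action of a semilattice with
identity `S` on a set `C` -/
def IsDownPoset {P : Type} (r : P → P → Prop) : Prop :=
  ∃ (S C : Type) (mul : S → S → S) (one : S) (act : C → S → C) (e : P ≃ C),
    (∀ s, mul s s = s) ∧ (∀ s t, mul s t = mul t s) ∧ (∀ s t u, mul (mul s t) u = mul s (mul t u)) ∧
    (∀ s, mul one s = s) ∧ (∀ c s t, act c (mul s t) = act (act c s) t) ∧ (∀ c, act c one = c) ∧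
    ∀ c d, r c d ↔ ∃ s, act (e d) s = e c

end Pool.Agent.H.MP_dd7d0c_lc
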